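import Pool.Agent.GolPar.Fin

set_option autoImplicit false

/-!
# Parity populations of Golomb Costas arrays over fields of characteristic two
-/

namespace Pool.Agent.Results.MP_da7cb8_co.NearlyEqualPopulations

open GolPar

/-- Let `F` be a field with `q = 2^m` elements and `α`, `β` primitive elements. Each of the four
parity populations of the Golomb array `α^i + β^j = 1` is `(q - 2) / 4` up to
`(1 + √q (log q + 3)²) / 4`. -/
theorem result {F : Type*} [Field F] [Fintype F] [DecidableEq F] [CharP F 2] {α β : F}
    (hα : orderOf α = Fintype.card F - 1) (hβ : orderOf β = Fintype.card F - 1) {r s : ℕ}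
    (hr : r < 2) (hs : s < 2) :
    |4 * (pop α β r s : ℝ) - (Fintype.card F - 2)| ≤
      1 + Real.sqrt (Fintype.card F) * (Real.log (Fintype.card F) + 3) ^ 2 := by
  have hq : Even (Fintype.card F) := by
    obtain ⟨n, hn, h⟩ := FiniteField.card F 2
    rw [h]
    exact (Nat.even_pow.2 ⟨even_two, n.ne_zero⟩)
  have h1 := pop_eq hα hβ hq hr hs
  have h2 := bound hα hβ hq
  rw [h1, add_sub_cancel_left, abs_mul, abs_pow, abs_neg, abs_one, one_pow, one_mul]
  exact h2

end Pool.Agent.Results.MP_da7cb8_co.NearlyEqualPopulations
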