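import Pool.Agent.Helper89.GP.Main

set_option autoImplicit false

/-!
# Parity populations of symmetric Golomb Costas arrays in characteristic two, modulo 4
-/

namespace Pool.Agent.Results.MP_da7cb8_co.SymmetricModFour

open GolPar

/-- Let `F` be a field with `q = 2^m ≥ 8` elements and `α` a primitive element. The parity populations
of the symmetric Golomb array `α^i + α^j = 1` satisfy `ee ≡ oo ≡ 2` and `eo ≡ oe ≡ 1` modulo `4`. -/
theorem result {F : Type*} [Field F] [Fintype F] [DecidableEq F] [CharP F 2]
    (hq : 8 ≤ Fintype.card F) {α : F} (hα : orderOf α = Fintype.card F - 1) :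
    pop α α 0 0 % 4 = 2 ∧ pop α α 1 1 % 4 = 2 ∧ pop α α 0 1 % 4 = 1 ∧ pop α α 1 0 % 4 = 1 :=
  Helper89.GP.main hq hα

end Pool.Agent.Results.MP_da7cb8_co.SymmetricModFour
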